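import Pool.Agent.Helper94.YF.St

set_option autoImplicit false

namespace Pool.Agent.Helper53.YF

open Pool.Agent.Helper94.YF

private theorem half_le {P k : ℤ} (hPo : Odd P) (hk : 0 < k) (h : P ∣ 2 * k) : 2 * P ≤ 2 * k := by
  have hc : IsCoprime P 2 := by
    obtain ⟨m, hm⟩ := hPo
    exact ⟨1, -m, by rw [hm]; ring⟩
  have h2 : P ∣ k := hc.dvd_of_dvd_mul_left h
  have h3 := Int.le_of_dvd hk h2
  linarith

private theorem plus_le {P Q : ℤ} (hQ : 0 < Q) (hPo : Odd P) (hQo : Odd Q) (h : P ∣ 1 + Q) :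
    2 * P ≤ Q + 1 := by
  obtain ⟨k, hk⟩ := hQo
  have e : 1 + Q = 2 * (k + 1) := by rw [hk]; ring
  rw [e] at h
  have := half_le hPo (by omega) h
  omega

private theorem minus_le {P Q : ℤ} (hQ : 0 < Q) (hPo : Odd P) (hQo : Odd Q) (h : P ∣ 1 - Q) :
    Q = 1 ∨ 2 * P ≤ Q - 1 := by
  obtain ⟨k, hk⟩ := hQo
  rcases eq_or_ne k 0 with h0 | h0
  · left
    omega
  · right
    have e : 1 - Q = -(2 * k) := by rw [hk]; ring
    rw [e, dvd_neg] at h
    have := half_le hPo (by omega) h
    omega

private theorem any_le {P Q e : ℤ} (hQ : 0 < Q) (hPo : Odd P) (hQo : Odd Q)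
    (he : e = 1 ∨ e = -1) (h : P ∣ 1 + e * Q) : Q = 1 ∨ 2 * P ≤ Q + 1 := by
  rcases he with rfl | rfl
  · rw [one_mul] at h
    exact Or.inr (plus_le hQ hPo hQo h)
  · rw [neg_one_mul, ← sub_eq_add_neg] at h
    rcases minus_le hQ hPo hQo h with h' | h'
    · exact Or.inl h'
    · exact Or.inr (by omega)

private theorem key {P Q Z e : ℤ} (hP : 0 < P) (hQ : 0 < Q) (hZ : 0 < Z) (hPo : Odd P)
    (hQo : Odd Q) (hZo : Odd Z) (he : e = 1 ∨ e = -1) (h1 : P ∣ 1 + Z) (h2 : Q ∣ 1 - Z)
    (h3 : Z ∣ P - e * Q) : P = 1 ∨ Q = 1 ∨ Z = 1 := by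
  have a1 := plus_le hZ hPo hZo h1
  rcases minus_le hZ hQo hZo h2 with hz | a2
  · exact Or.inr (Or.inr hz)
  rcases he with rfl | rfl
  · rw [one_mul] at h3
    rcases eq_or_ne P Q with h | h
    · left
      subst h
      have h4 : P ∣ 2 := by
        have := dvd_add h1 h2
        have e : (1 : ℤ) + Z + (1 - Z) = 2 := by ring
        rwa [e] at this
      have h5 : 2 * P ≤ 2 * 1 := half_le hPo one_pos (by simpa using h4)
      omega
    · exfalso
      rcases lt_or_gt_of_ne h with h' | h'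
      · have h4 : Z ∣ Q - P := by
          have := (dvd_neg).2 h3
          rwa [neg_sub] at this
        have := Int.le_of_dvd (by omega) h4
        omega
      · have := Int.le_of_dvd (by omega) h3
        omega
  · exfalso
    have e : P - -1 * Q = P + Q := by ring
    rw [e] at h3
    have := Int.le_of_dvd (by omega) h3
    obtain ⟨i, hi⟩ := hPo
    obtain ⟨j, hj⟩ := hQo
    omega

theorem hDIV : Pool.Agent.Helper94.YF.StDIV := by
  constructor
  · intro P Q e f hP hQ hPo hQo he hf h1 h2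
    rcases any_le hQ hPo hQo he h1 with h | h
    · exact Or.inr h
    · rcases any_le hP hQo hPo hf h2 with h' | h'
      · exact Or.inl h'
      · left
        omega
  · intro P Q Z w e hP hQ hZ hPo hQo hZo hw he h1 h2 h3
    rcases hw with rfl | rfl
    · exact key hP hQ hZ hPo hQo hZo he h1 h2 h3
    · have h1' : P ∣ 1 - Z := by rwa [← sub_eq_add_neg] at h1
      have h2' : Q ∣ 1 + Z := by rwa [sub_neg_eq_add] at h2
      have h3' : Z ∣ Q - e * P := by
        rcases he with rfl | rfl
        · have := (dvd_neg).2 h3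
          have e : -(P - 1 * Q) = Q - 1 * P := by ring
          rwa [e] at this
        · have e : P - -1 * Q = Q - -1 * P := by ring
          rwa [e] at h3
      rcases key hQ hP hZ hQo hPo hZo he h2' h1' h3' with h | h | h
      · exact Or.inr (Or.inl h)
      · exact Or.inl h
      · exact Or.inr (Or.inr h)

end Pool.Agent.Helper53.YF
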